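import Mathlib

/-!
# Nil-clean rings and D-regularly nil clean rings

A nil-clean ring in which every nonzero factor ring has a nonzero ideal of π-regular elements is
D-regularly nil clean.
-/

set_option autoImplicit false

namespace Pool.Agent.Results.MP_d9a27f_al.PiRegularIdeals

universe u

/-- nil-clean rings -/
def NilClean (R : Type u) [Ring R] : Prop :=
  ∀ r : R, ∃ q e : R, IsNilpotent q ∧ e * e = e ∧ r = q + e

/-- D-regularly nil clean rings -/
def DRegNilClean (R : Type u) [Ring R] : Prop :=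
  ∀ a : R, ∃ e : R, e * e = e ∧ (∃ x : R, e = a * x * a) ∧ IsNilpotent (a * (1 - e))

/-- π-regular elements -/
def PiReg {R : Type u} [Ring R] (a : R) : Prop :=
  ∃ n : ℕ, 1 ≤ n ∧ ∃ y : R, a ^ n = a ^ n * y * a ^ n

/-- an element which satisfies the condition modulo `I` -/
def Good {R : Type u} [Ring R] (I : Ideal R) (a : R) : Prop :=
  ∃ (y : R) (k : ℕ), (a * y * a) * (a * y * a) - a * y * a ∈ I ∧ (a * (1 - a * y * a)) ^ k ∈ I

section
variable {S : Type u} [Ring S]

/-- the exchange property -/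
def Exch (S : Type u) [Ring S] : Prop :=
  ∀ x : S, ∃ f r t : S, f * f = f ∧ f = x * r ∧ 1 - f = (1 - x) * t

theorem exch_of_nilClean (h : NilClean S) : Exch S := by
  intro x
  obtain ⟨q, e, hq, he, hx⟩ := h (x - 1)
  have hu : IsUnit (1 + q) := hq.isUnit_one_add
  obtain ⟨u, hu⟩ := hu
  have hxu : x = (u : S) + e := by
    rw [hu]
    have : x = (x - 1) + 1 := by abel
    rw [this, hx]; abel
  have h1 : (u : S) * ((u⁻¹ : Sˣ) : S) = 1 := Units.mul_inv u
  have h2 : ((u⁻¹ : Sˣ) : S) * (u : S) = 1 := Units.inv_mul u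
  set v : S := ((u⁻¹ : Sˣ) : S) with hv
  set w : S := (u : S) with hw
  -- `f = w (1 - e) v`, `(x - f) w = x ^ 2 - x`
  have key : (x - w * (1 - e) * v) * w = x * x - x := by
    have : (x - w * (1 - e) * v) * w = x * w - w * (1 - e) * (v * w) := by noncomm_ring
    rw [this, h2, hxu]
    have : (w + e) * w - w * (1 - e) * 1 = w * w + e * w + w * e - w := by noncomm_ring
    rw [this]
    have : (w + e) * (w + e) - (w + e) = w * w + e * w + w * e - w + (e * e - e) := by
      noncomm_ring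
    rw [this, he]; simp
  have key2 : x - w * (1 - e) * v = (x * x - x) * v := by
    rw [← key, mul_assoc (x - w * (1 - e) * v) w v, h1, mul_one]
  refine ⟨w * (1 - e) * v, 1 - (x - 1) * v, 1 - x * v, ?_, ?_, ?_⟩
  · have : w * (1 - e) * v * (w * (1 - e) * v) = w * (1 - e) * (v * w) * (1 - e) * v := by
      noncomm_ring
    rw [this, h2, mul_one]
    have : (1 - e) * (1 - e) = 1 - e := by
      have : (1 - e) * (1 - e) = 1 - e + (e * e - e) := by noncomm_ring
      rw [this, he]; simp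
    rw [mul_assoc w (1 - e) (1 - e), this]
  · have : w * (1 - e) * v = x - (x * x - x) * v := by rw [← key2]; abel
    rw [this]; noncomm_ring
  · have : w * (1 - e) * v = x - (x * x - x) * v := by rw [← key2]; abel
    rw [this]; noncomm_ring

/-- lifting of idempotents modulo ideals, inside `x S x` -/
theorem lift (hS : Exch S) (K : Ideal S) [K.IsTwoSided] (x : S) (hx : x * x - x ∈ K) :
    ∃ y : S, (x * y * x) * (x * y * x) = x * y * x ∧ x * y * x - x ∈ K := by
  obtain ⟨e, r, t, he, her, het⟩ := hS x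
  obtain ⟨g, t1, t2, hg, hg1, hg2⟩ := hS (e * x * e + 1 - e)
  have hg2' : 1 - g = (e - e * x * e) * t2 := by rw [hg2]; noncomm_ring
  have hf : e * (1 - g) = 1 - g := by
    rw [hg2']
    have : e * ((e - e * x * e) * t2) = (e * e - (e * e) * x * e) * t2 := by noncomm_ring
    rw [this, he]
  -- `h0 = e g e`
  obtain ⟨h0, hh0⟩ : ∃ h0 : S, h0 = e * g * e := ⟨_, rfl⟩
  have hh1 : h0 = e - (1 - g) * e := by
    have : e - (1 - g) * e = e * e - e * (1 - g) * e := by rw [hf, he]
    rw [this, hh0]; noncomm_ring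
  have hh2 : h0 * h0 = h0 := by
    have a1 : h0 * h0 = e * e - e * (1 - g) * e - (1 - g) * (e * e) +
        (1 - g) * (e * (1 - g)) * e := by rw [hh1]; noncomm_ring
    have a2 : (1 - g) * (1 - g) = 1 - g := by
      have : (1 - g) * (1 - g) = 1 - g + (g * g - g) := by noncomm_ring
      rw [this, hg]; simp
    rw [a1, hf, he, a2, hh1]; noncomm_ring
  have hh3 : h0 = e * x * e * (t1 * e) := by
    rw [hh0, hg1]
    have : e * ((e * x * e + 1 - e) * t1) * e = ((e * e) * x * e + (e - e * e)) * t1 * e := by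
      noncomm_ring
    rw [this, he]; noncomm_ring
  have hh4 : e * h0 = h0 := by
    rw [hh0]
    have : e * (e * g * e) = (e * e) * g * e := by noncomm_ring
    rw [this, he]
  have hh5 : h0 * e = h0 := by
    rw [hh0]
    have : (e * g * e) * e = e * g * (e * e) := by noncomm_ring
    rw [this, he]
  obtain ⟨s, hs⟩ : ∃ s : S, s = e * t1 * e * h0 := ⟨_, rfl⟩
  have hs1 : e * x * s = h0 := by
    have : e * x * s = (e * x * e * (t1 * e)) * h0 := by rw [hs]; noncomm_ring
    rw [this, ← hh3, hh2]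
  have hs2 : s * h0 = s := by
    rw [hs, mul_assoc _ h0 h0, hh2]
  have hs3 : s * e = s := by
    rw [hs, mul_assoc _ h0 e, hh5]
  have hs4 : e * s = s := by
    rw [hs]
    have : e * (e * t1 * e * h0) = (e * e) * t1 * e * h0 := by noncomm_ring
    rw [this, he]
  have hs5 : s * x * s = s := by
    calc s * x * s = (s * e) * x * s := by rw [hs3]
      _ = s * (e * x * s) := by noncomm_ring
      _ = s := by rw [hs1, hs2]
  have hsx : s * x = x * (r * t1 * e * h0) * x := by
    have : s = x * r * t1 * e * h0 := by rw [← her, hs]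
    rw [this]; noncomm_ring
  refine ⟨r * t1 * e * h0, ?_, ?_⟩
  · rw [← hsx]
    calc s * x * (s * x) = (s * x * s) * x := by noncomm_ring
      _ = s * x := by rw [hs5]
  · rw [← hsx]
    -- congruences modulo `K`
    set π := Ideal.Quotient.mk K with hπ
    have c0 : π x * π x = π x := by
      rw [← map_mul, ← sub_eq_zero, ← map_sub]
      exact Ideal.Quotient.eq_zero_iff_mem.2 hx
    have c1 : π e = π x * π r := by rw [← map_mul, ← her]
    have c2 : 1 - π e = (1 - π x) * π t := by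
      rw [← map_one π, ← map_sub, ← map_sub, ← map_mul, ← het]
    have c3 : π x * π e = π e := by rw [c1, ← mul_assoc, c0]
    have c4 : π x * (1 - π e) = 0 := by
      rw [c2, ← mul_assoc, mul_sub, mul_one, c0, sub_self, zero_mul]
    have c5 : π x = π e := by
      have : π x = π x * π e + π x * (1 - π e) := by noncomm_ring
      rw [c4, add_zero, c3] at this
      exact this
    have c6 : π (1 - g) = 0 := by
      rw [hg2', map_mul, map_sub, map_mul, map_mul, c5]
      have : π e * π e = π e := by rw [← map_mul, he]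
      rw [this, this, sub_self, zero_mul]
    have c7 : π h0 = π e := by
      rw [hh1, map_sub, map_mul, c6, zero_mul, sub_zero]
    have c8 : π s = π e := by
      have e1 : π e * π x * π s = π h0 := by rw [← map_mul, ← map_mul, hs1]
      have e2 : π e * π s = π s := by rw [← map_mul, hs4]
      have : π e * π e = π e := by rw [← map_mul, he]
      rw [c5, this, e2, c7] at e1
      exact e1
    have : π (s * x - x) = 0 := by
      rw [map_sub, map_mul, c8, ← c5, c0, sub_self]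
    exact Ideal.Quotient.eq_zero_iff_mem.1 this

theorem corner_pow (P a : S) (hP : P * P = P) (j : ℕ) :
    (P * a * P) ^ (j + 1) = P * (a * P) ^ (j + 1) := by
  induction j with
  | zero => simp [mul_assoc]
  | succ j ih =>
    rw [pow_succ, ih]
    have h1 : (a * P) ^ (j + 1) * P = (a * P) ^ (j + 1) := by
      rw [pow_succ, mul_assoc, mul_assoc, hP]
    have h2 : P * (a * P) ^ (j + 1) * (P * a * P) = P * ((a * P) ^ (j + 1) * P) * (a * P) := by
      noncomm_ring
    rw [h2, h1, mul_assoc, ← pow_succ]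

/-- π-regular elements satisfy the condition -/
theorem piReg_good (b z : S) (M : ℕ) (hz : b ^ (M + 2) = b ^ (M + 2) * z * b ^ (M + 2)) :
    ∃ y : S, (b * y * b) * (b * y * b) = b * y * b ∧ (b * (1 - b * y * b)) ^ (M + 3) = 0 := by
  obtain ⟨z1, hz1⟩ : ∃ z1 : S, z1 = z * b ^ (M + 2) * z := ⟨_, rfl⟩
  have h1 : b ^ (M + 2) * z1 * b ^ (M + 2) = b ^ (M + 2) := by
    have : b ^ (M + 2) * z1 * b ^ (M + 2) =
        (b ^ (M + 2) * z * b ^ (M + 2)) * z * b ^ (M + 2) := by
      rw [hz1]; simp only [mul_assoc]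
    rw [this, ← hz, ← hz]
  have h2 : z1 * b ^ (M + 2) * z1 = z1 := by
    have : z1 * b ^ (M + 2) * z1 =
        z * ((b ^ (M + 2) * z * b ^ (M + 2)) * z * b ^ (M + 2)) * z := by
      rw [hz1]; simp only [mul_assoc]
    rw [this, ← hz, ← hz, hz1]
  obtain ⟨f, hf⟩ : ∃ f : S, f = b * (z1 * b ^ M) * b := ⟨_, rfl⟩
  have hf' : f = b * z1 * b ^ (M + 1) := by
    rw [hf, pow_succ]; simp only [mul_assoc]
  have hb2 : b ^ (M + 1) * b = b ^ (M + 2) := (pow_succ b (M + 1)).symm
  have hff : f * f = f := by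
    have : f * f = b * (z1 * (b ^ (M + 1) * b) * z1) * b ^ (M + 1) := by
      rw [hf']; simp only [mul_assoc]
    rw [this, hb2, h2, hf']
  have hfb : f * b = b * z1 * b ^ (M + 2) := by
    rw [hf', mul_assoc, hb2]
  have hk : b ^ (M + 1) * ((1 - f) * b) = 0 := by
    have e1 : b ^ (M + 1) * ((1 - f) * b) = b ^ (M + 1) * b - b ^ (M + 1) * (f * b) := by
      noncomm_ring
    have e2 : b ^ (M + 1) * (f * b) = (b ^ (M + 1) * b) * z1 * b ^ (M + 2) := by
      rw [hfb]; simp only [mul_assoc]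
    rw [e1, e2, hb2, h1, sub_self]
  -- `(1 - f) b w = b w` if `b ^ (M + 1) w = 0`
  have hw : ∀ w : S, b ^ (M + 1) * w = 0 → (1 - f) * b * w = b * w := by
    intro w hw
    have e1 : (1 - f) * b * w = b * w - (f * b) * w := by noncomm_ring
    have e2 : (f * b) * w = b * z1 * b * (b ^ (M + 1) * w) := by
      rw [hfb, pow_succ' b (M + 1)]; simp only [mul_assoc]
    rw [e1, e2, hw, mul_zero, sub_zero]
  have hpow : ∀ j : ℕ, ((1 - f) * b) ^ (j + 1) = b ^ j * ((1 - f) * b) := by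
    intro j
    induction j with
    | zero => simp
    | succ j ih =>
      rw [pow_succ', ih, hw _ ?_, pow_succ' b j, mul_assoc]
      rw [← mul_assoc, ← pow_add, add_comm (M + 1) j, pow_add, mul_assoc, hk, mul_zero]
  refine ⟨z1 * b ^ M, ?_, ?_⟩
  · rw [← hf, hff]
  · rw [← hf]
    have e0 : ((1 - f) * b) ^ (M + 2) = 0 := by rw [hpow (M + 1), hk]
    have e1 : (b * (1 - f)) ^ (M + 3) = b * ((1 - f) * b) ^ (M + 2) * (1 - f) := by
      have gen : ∀ j : ℕ, (b * (1 - f)) ^ (j + 1) = b * ((1 - f) * b) ^ j * (1 - f) := by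
        intro j
        induction j with
        | zero => simp
        | succ j ih => rw [pow_succ, ih, pow_succ ((1 - f) * b) j]; simp only [mul_assoc]
      exact gen (M + 2)
    rw [e1, e0, mul_zero, zero_mul]

/-- extension by an ideal of π-regular elements -/
theorem good_ext (hS : Exch S) (K : Ideal S) [K.IsTwoSided] (hK : ∀ x ∈ K, PiReg x) (a : S)
    (ha : Good K a) :
    ∃ e : S, e * e = e ∧ (∃ x : S, e = a * x * a) ∧ IsNilpotent (a * (1 - e)) := by
  obtain ⟨y0, k, h1, h2⟩ := ha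
  obtain ⟨y1, h3, h4⟩ := lift hS K (a * y0 * a) h1
  obtain ⟨w, hw⟩ : ∃ w : S, w = y0 * a * y1 * a * y0 := ⟨_, rfl⟩
  obtain ⟨q, hq⟩ : ∃ q : S, q = a * w * a := ⟨_, rfl⟩
  have hq' : a * y0 * a * y1 * (a * y0 * a) = q := by
    rw [hq, hw]; simp only [mul_assoc]
  rw [hq'] at h3 h4
  -- `(a (1 - q)) ^ k ∈ K`
  have h5 : (a * (1 - q)) ^ k ∈ K := by
    rw [← Ideal.Quotient.eq_zero_iff_mem] at h2 h4 ⊢
    rw [map_sub, sub_eq_zero] at h4
    rw [map_pow, map_mul, map_sub, map_one] at h2 ⊢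
    rw [h4]; exact h2
  obtain ⟨P, hP⟩ : ∃ P : S, P = 1 - q := ⟨_, rfl⟩
  have hPP : P * P = P := by
    have : P * P = 1 - q + (q * q - q) := by rw [hP]; noncomm_ring
    rw [this, h3, hP]; simp
  have hPq : P * q = 0 := by
    have : P * q = q - q * q := by rw [hP]; noncomm_ring
    rw [this, h3, sub_self]
  have hqP : q * P = 0 := by
    have : q * P = q - q * q := by rw [hP]; noncomm_ring
    rw [this, h3, sub_self]
  rw [← hP] at h5
  obtain ⟨b, hb⟩ : ∃ b : S, b = P * a * P := ⟨_, rfl⟩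
  have h6 : b ^ (2 * (k + 1)) ∈ K := by
    have : b ^ (k + 1) ∈ K := by
      rw [hb, corner_pow P a hPP, pow_succ', ← mul_assoc]
      exact K.mul_mem_left _ h5
    rw [two_mul, pow_add]
    exact K.mul_mem_left _ this
  obtain ⟨n, hn, z, hz⟩ := hK _ h6
  rw [← pow_mul] at hz
  obtain ⟨M, hM⟩ : ∃ M : ℕ, 2 * (k + 1) * n = M + 2 := by
    refine ⟨2 * (k + 1) * n - 2, ?_⟩
    have : 2 * (k + 1) * 1 ≤ 2 * (k + 1) * n := Nat.mul_le_mul_left _ hn
    omega
  rw [hM] at hz
  obtain ⟨y, hy1, hy2⟩ := piReg_good b z M hz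
  obtain ⟨f, hf⟩ : ∃ f : S, f = b * y * b := ⟨_, rfl⟩
  rw [← hf] at hy1 hy2
  have hbP : b * P = b := by rw [hb, mul_assoc, hPP]
  have hPb : P * b = b := by
    rw [hb]
    have : P * (P * a * P) = (P * P) * a * P := by noncomm_ring
    rw [this, hPP]
  have hbq : b * q = 0 := by rw [← hbP, mul_assoc, hPq, mul_zero]
  have hqb : q * b = 0 := by rw [← hPb, ← mul_assoc, hqP, zero_mul]
  have hfq : f * q = 0 := by rw [hf, mul_assoc, hbq, mul_zero]
  have hqf : q * f = 0 := by
    rw [hf, ← mul_assoc, ← mul_assoc, hqb, zero_mul, zero_mul]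
  have hfP : f * P = f := by rw [hf, mul_assoc, hbP]
  have hPf : P * f = f := by rw [hf, ← mul_assoc, ← mul_assoc, hPb]
  refine ⟨q + f, ?_, ?_, ?_⟩
  · have : (q + f) * (q + f) = q * q + q * f + f * q + f * f := by noncomm_ring
    rw [this, h3, hqf, hfq, hy1]; simp
  · -- `b = a u = v a`
    have hu : b = a * ((1 - w * a * a) * P) := by
      rw [hb, hP, hq]; noncomm_ring
    have hv : b = (P * (1 - a * a * w)) * a := by
      rw [hb, hP, hq]; noncomm_ring
    refine ⟨w + (1 - w * a * a) * P * y * (P * (1 - a * a * w)), ?_⟩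
    have : f = a * ((1 - w * a * a) * P) * y * ((P * (1 - a * a * w)) * a) := by
      rw [← hu, ← hv, hf]
    rw [this]
    nth_rewrite 1 [hq]
    simp only [mul_add, add_mul, mul_assoc]
  · obtain ⟨Q, hQ⟩ : ∃ Q : S, Q = 1 - (q + f) := ⟨_, rfl⟩
    rw [← hQ]
    have hQ' : Q = P - f := by rw [hQ, hP]; abel
    have hQP : Q * P = Q := by rw [hQ', sub_mul, hPP, hfP]
    have hPQ : P * Q = Q := by rw [hQ', mul_sub, hPP, hPf]
    have hQQ : Q * Q = Q := by
      have : Q * Q = P * P - P * f - f * P + f * f := by rw [hQ']; noncomm_ring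
      rw [this, hPP, hPf, hfP, hy1, hQ']; abel
    have hbQ : b * Q = b * (1 - f) := by
      rw [hQ', mul_sub, hbP]; noncomm_ring
    have hQaQ : Q * a * Q = Q * b * Q := by
      have : Q * b * Q = (Q * P) * a * (P * Q) := by rw [hb]; noncomm_ring
      rw [this, hQP, hPQ]
    refine ⟨M + 4, ?_⟩
    have e1 : (a * Q) ^ (M + 4) = a * (Q * (a * Q) ^ (M + 3)) := by
      rw [pow_succ' (a * Q) (M + 3)]; simp only [mul_assoc]
    have e2 : Q * (a * Q) ^ (M + 2 + 1) = (Q * b * Q) ^ (M + 2 + 1) := by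
      rw [← corner_pow Q a hQQ, hQaQ]
    rw [e1, show M + 3 = M + 2 + 1 from rfl, e2, corner_pow Q b hQQ, hbQ,
      show M + 2 + 1 = M + 3 from rfl, hy2, mul_zero, mul_zero]

end

/-- Zorn's lemma -/
theorem exists_max {R : Type u} [Ring R] (a : R) (h0 : ¬ Good (⊥ : Ideal R) a) :
    ∃ I : Ideal R, I.IsTwoSided ∧ ¬ Good I a ∧
      ∀ K : Ideal R, K.IsTwoSided → I < K → Good K a := by
  have hz := zorn_le_nonempty₀ {I : Ideal R | I.IsTwoSided ∧ ¬ Good I a} (by
    intro c hc hchain y hy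
    refine ⟨sSup c, ⟨⟨?_⟩, ?_⟩, fun z hz => le_sSup hz⟩
    · intro x b hx
      rw [Submodule.mem_sSup_of_directed ⟨y, hy⟩ hchain.directedOn] at hx ⊢
      obtain ⟨I, hI, hxI⟩ := hx
      have := (hc hI).1
      exact ⟨I, hI, Ideal.mul_mem_right b I hxI⟩
    · rintro ⟨w, k, h1, h2⟩
      rw [Submodule.mem_sSup_of_directed ⟨y, hy⟩ hchain.directedOn] at h1 h2
      obtain ⟨I, hI, h1I⟩ := h1
      obtain ⟨J, hJ, h2J⟩ := h2
      rcases hchain.total hI hJ with hIJ | hJI
      · exact (hc hJ).2 ⟨w, k, hIJ h1I, h2J⟩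
      · exact (hc hI).2 ⟨w, k, h1I, hJI h2J⟩) ⊥ ⟨inferInstance, h0⟩
  obtain ⟨I, -, hI⟩ := hz
  refine ⟨I, hI.prop.1, hI.prop.2, ?_⟩
  intro K hK hIK
  by_contra hcon
  exact absurd (hI.le_of_ge ⟨hK, hcon⟩ hIK.le) (not_le_of_gt hIK)

theorem nilClean_quot {R : Type u} [Ring R] (h : NilClean R) (I : Ideal R) [I.IsTwoSided] :
    NilClean (R ⧸ I) := by
  intro r
  obtain ⟨r, rfl⟩ := Ideal.Quotient.mk_surjective r
  obtain ⟨q, e, hq, he, hr⟩ := h r
  refine ⟨Ideal.Quotient.mk I q, Ideal.Quotient.mk I e, hq.map _, ?_, ?_⟩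
  · rw [← map_mul, he]
  · rw [hr, map_add]

theorem not_good_bot {R : Type u} [Ring R] (a : R)
    (ha : ¬ ∃ e : R, e * e = e ∧ (∃ x : R, e = a * x * a) ∧ IsNilpotent (a * (1 - e))) :
    ¬ Good (⊥ : Ideal R) a := by
  rintro ⟨y, k, h1, h2⟩
  rw [Ideal.mem_bot] at h1 h2
  exact ha ⟨a * y * a, sub_eq_zero.1 h1, ⟨y, rfl⟩, ⟨k, h2⟩⟩

theorem exch_quot {R : Type u} [Ring R] (h : Exch R) (I : Ideal R) [I.IsTwoSided] :
    Exch (R ⧸ I) := by
  intro x
  obtain ⟨x, rfl⟩ := Ideal.Quotient.mk_surjective x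
  obtain ⟨f, r, t, h1, h2, h3⟩ := h x
  refine ⟨Ideal.Quotient.mk I f, Ideal.Quotient.mk I r, Ideal.Quotient.mk I t, ?_, ?_, ?_⟩
  · rw [← map_mul, h1]
  · rw [← map_mul, ← h2]
  · rw [← map_one (Ideal.Quotient.mk I), ← map_sub, ← map_sub, ← map_mul, ← h3]

theorem main {R : Type u} [Ring R] (h : Exch R) (a : R)
    (ha : ¬ ∃ e : R, e * e = e ∧ (∃ x : R, e = a * x * a) ∧ IsNilpotent (a * (1 - e))) :
    ∃ (I : Ideal R) (_ : I.IsTwoSided), I ≠ ⊤ ∧
      (¬ ∃ e : R ⧸ I, e * e = e ∧ (∃ x : R ⧸ I, e = Ideal.Quotient.mk I a * x *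
        Ideal.Quotient.mk I a) ∧ IsNilpotent (Ideal.Quotient.mk I a * (1 - e))) ∧
      ∀ K : Ideal (R ⧸ I), K.IsTwoSided → K ≠ ⊥ → ∃ x ∈ K, ¬ PiReg x := by
  obtain ⟨I, hI, hIa, hmax⟩ := exists_max a (not_good_bot a ha)
  have := hI
  have hbad : ¬ ∃ e : R ⧸ I, e * e = e ∧ (∃ x : R ⧸ I, e = Ideal.Quotient.mk I a * x *
        Ideal.Quotient.mk I a) ∧ IsNilpotent (Ideal.Quotient.mk I a * (1 - e)) := by
    rintro ⟨e, he, ⟨x, hx⟩, k, hk⟩
    obtain ⟨x, rfl⟩ := Ideal.Quotient.mk_surjective x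
    apply hIa
    refine ⟨x, k, ?_, ?_⟩
    · rw [← Ideal.Quotient.eq_zero_iff_mem, map_sub, sub_eq_zero, map_mul, map_mul, map_mul,
        ← hx, he]
    · rw [← Ideal.Quotient.eq_zero_iff_mem, map_pow, map_mul, map_sub, map_one, map_mul, map_mul,
        ← hx, hk]
  refine ⟨I, hI, ?_, hbad, ?_⟩
  · rintro rfl
    exact hIa ⟨0, 0, Submodule.mem_top, Submodule.mem_top⟩
  · intro K hK hK0
    by_contra hcon
    push Not at hcon
    have := hK
    apply hbad
    have hS : Exch (R ⧸ I) := exch_quot h I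
    refine good_ext hS K hcon _ ?_
    -- the preimage of `K`
    obtain ⟨K', hK'⟩ : ∃ K' : Ideal R, K' = K.comap (Ideal.Quotient.mk I) := ⟨_, rfl⟩
    have hmem : ∀ x : R, x ∈ K' ↔ Ideal.Quotient.mk I x ∈ K := by
      intro x; rw [hK', Ideal.mem_comap]
    have hlt : I < K' := by
      refine lt_of_le_of_ne ?_ ?_
      · intro x hx
        rw [hmem, Ideal.Quotient.eq_zero_iff_mem.2 hx]
        exact K.zero_mem
      · rintro heq
        apply hK0
        rw [eq_bot_iff]
        intro z hz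
        obtain ⟨z, rfl⟩ := Ideal.Quotient.mk_surjective z
        have : z ∈ I := by rw [heq, hmem]; exact hz
        rw [Ideal.mem_bot]
        exact Ideal.Quotient.eq_zero_iff_mem.2 this
    have htwo : K'.IsTwoSided := by
      refine ⟨?_⟩
      intro x b hx
      rw [hmem] at hx ⊢
      rw [map_mul]
      exact Ideal.mul_mem_right _ K hx
    obtain ⟨y, k, h1, h2⟩ := hmax K' htwo hlt
    rw [hmem] at h1 h2
    refine ⟨Ideal.Quotient.mk I y, k, ?_, ?_⟩
    · rw [map_sub, map_mul, map_mul, map_mul] at h1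
      exact h1
    · rw [map_pow, map_mul, map_sub, map_one, map_mul, map_mul] at h2
      exact h2

theorem piReg_of_nilpotent {R : Type u} [Ring R] {x : R} (h : IsNilpotent x) : PiReg x := by
  obtain ⟨n, hn⟩ := h
  refine ⟨n + 1, Nat.succ_pos n, 0, ?_⟩
  rw [pow_succ, hn, zero_mul, zero_mul, zero_mul]

theorem piReg_map {R S : Type u} [Ring R] [Ring S] (φ : R →+* S) {x : R} (h : PiReg x) :
    PiReg (φ x) := by
  obtain ⟨n, hn, y, hy⟩ := h
  refine ⟨n, hn, φ y, ?_⟩
  rw [← map_pow, ← map_mul, ← map_mul, ← hy]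

/-- elements of `J(R)` are nilpotent -/
theorem jac_nil {R : Type u} [Ring R] (hR : NilClean R) : ∀ x ∈ Ring.jacobson R, IsNilpotent x := by
  intro x hx
  obtain ⟨q, e, ⟨n, hq⟩, he, hxe⟩ := hR x
  have hq' : q = x - e := by rw [hxe]; abel
  have he' : Ideal.Quotient.mk (Ring.jacobson R) e = 0 := by
    set π := Ideal.Quotient.mk (Ring.jacobson R) with hπ
    have h1 : π q = - π e := by
      rw [hq', map_sub, Ideal.Quotient.eq_zero_iff_mem.2 hx, zero_sub]
    have h2 : π e * π e = π e := by rw [← map_mul, he]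
    have h3 : ∀ k : ℕ, π e * (π q) ^ k = π e ∨ π e * (π q) ^ k = - π e := by
      intro k
      induction k with
      | zero => left; simp
      | succ k ih =>
        rcases ih with ih | ih
        · right
          rw [pow_succ, ← mul_assoc, ih, h1, mul_neg, h2]
        · left
          rw [pow_succ, ← mul_assoc, ih, h1, mul_neg, neg_mul, h2, neg_neg]
    rcases h3 n with h4 | h4
    · rw [← map_pow, hq, map_zero, mul_zero] at h4
      exact h4.symm
    · rw [← map_pow, hq, map_zero, mul_zero] at h4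
      exact neg_eq_zero.1 h4.symm
  have he2 : e ∈ Ring.jacobson R := Ideal.Quotient.eq_zero_iff_mem.1 he'
  have he3 : e = 0 := by
    rw [← Ideal.jacobson_bot, Ideal.mem_jacobson_iff] at he2
    obtain ⟨z, hz⟩ := he2 (-1)
    rw [Ideal.mem_bot] at hz
    have h7 : z * (1 - e) = 1 := by
      have : z * (1 - e) = (z * -1 * e + z - 1) + 1 := by noncomm_ring
      rw [this, hz, zero_add]
    have h8 : (1 - e) * e = 0 := by rw [sub_mul, one_mul, he, sub_self]
    calc e = z * (1 - e) * e := by rw [h7, one_mul]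
      _ = 0 := by rw [mul_assoc, h8, mul_zero]
  rw [hxe, he3, add_zero]
  exact ⟨n, hq⟩

theorem jac_case {R : Type u} [Ring R] (hR : NilClean R)
    (hJ : ∀ x : R ⧸ Ring.jacobson R, PiReg x) (I : Ideal R) [I.IsTwoSided] (hI1 : I ≠ ⊤) :
    ∃ K : Ideal (R ⧸ I), K.IsTwoSided ∧ K ≠ ⊥ ∧ ∀ x ∈ K, PiReg x := by
  by_cases hle : Ring.jacobson R ≤ I
  · refine ⟨⊤, inferInstance, ?_, ?_⟩
    · intro h
      apply hI1
      rw [Ideal.eq_top_iff_one]
      have h1 : (1 : R ⧸ I) ∈ (⊥ : Ideal (R ⧸ I)) := by rw [← h]; exact Submodule.mem_top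
      rw [Ideal.mem_bot, ← map_one (Ideal.Quotient.mk I)] at h1
      exact Ideal.Quotient.eq_zero_iff_mem.1 h1
    · intro x _
      obtain ⟨x, rfl⟩ := Ideal.Quotient.mk_surjective x
      have h1 := piReg_map (Ideal.Quotient.factor hle) (hJ (Ideal.Quotient.mk _ x))
      rw [Ideal.Quotient.factor_mk] at h1
      exact h1
  · have hsurj : Function.Surjective (Ideal.Quotient.mk I) := Ideal.Quotient.mk_surjective
    refine ⟨(Ring.jacobson R).map (Ideal.Quotient.mk I), ⟨?_⟩, ?_, ?_⟩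
    · intro a b ha
      rw [Ideal.mem_map_iff_of_surjective _ hsurj] at ha ⊢
      obtain ⟨x, hx, rfl⟩ := ha
      obtain ⟨b, rfl⟩ := hsurj b
      exact ⟨x * b, Ideal.mul_mem_right _ _ hx, by rw [map_mul]⟩
    · intro h
      apply hle
      intro x hx
      have h1 : Ideal.Quotient.mk I x ∈ (Ring.jacobson R).map (Ideal.Quotient.mk I) :=
        Ideal.mem_map_of_mem _ hx
      rw [h, Ideal.mem_bot] at h1
      exact Ideal.Quotient.eq_zero_iff_mem.1 h1
    · intro a ha
      rw [Ideal.mem_map_iff_of_surjective _ hsurj] at ha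
      obtain ⟨x, hx, rfl⟩ := ha
      exact piReg_map _ (piReg_of_nilpotent (jac_nil hR x hx))

/-- Part 1: an exchange ring all of whose nonzero factor rings `R / I` have a nonzero two-sided
ideal of π-regular elements is D-regularly nil clean.
Part 2: nil-clean rings are exchange rings.
Part 3: a nil-clean ring which is not D-regularly nil clean has a nonzero factor ring which is
nil-clean and not D-regularly nil clean, and in which every nonzero two-sided ideal contains an
element which is not π-regular.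
Part 4: if `R` is nil-clean and `R / J(R)` is π-regular, then `R` is D-regularly nil clean. -/
theorem result :
    (∀ (R : Type u) [Ring R], Exch R →
      (∀ (I : Ideal R) [I.IsTwoSided], I ≠ ⊤ →
        ∃ K : Ideal (R ⧸ I), K.IsTwoSided ∧ K ≠ ⊥ ∧ ∀ x ∈ K, PiReg x) → DRegNilClean R) ∧
    (∀ (R : Type u) [Ring R], NilClean R → Exch R) ∧
    (∀ (R : Type u) [Ring R], NilClean R → ¬ DRegNilClean R →
      ∃ (I : Ideal R) (_ : I.IsTwoSided), I ≠ ⊤ ∧ NilClean (R ⧸ I) ∧ ¬ DRegNilClean (R ⧸ I) ∧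
        ∀ K : Ideal (R ⧸ I), K.IsTwoSided → K ≠ ⊥ → ∃ x ∈ K, ¬ PiReg x) ∧
    (∀ (R : Type u) [Ring R], NilClean R → (∀ x : R ⧸ Ring.jacobson R, PiReg x) →
      DRegNilClean R) := by
  have p1 : ∀ (R : Type u) [Ring R], Exch R →
      (∀ (I : Ideal R) [I.IsTwoSided], I ≠ ⊤ →
        ∃ K : Ideal (R ⧸ I), K.IsTwoSided ∧ K ≠ ⊥ ∧ ∀ x ∈ K, PiReg x) → DRegNilClean R := by
    intro R _ hR hK a
    by_contra ha
    obtain ⟨I, hI, hI1, -, hI2⟩ := main hR a ha
    obtain ⟨K, hK1, hK2, hK3⟩ := hK I hI1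
    obtain ⟨x, hx, hx2⟩ := hI2 K hK1 hK2
    exact hx2 (hK3 x hx)
  refine ⟨p1, fun R _ hR => exch_of_nilClean hR, ?_, ?_⟩
  · intro R _ hR hD
    obtain ⟨a, ha⟩ := not_forall.1 hD
    obtain ⟨I, hI, hI1, hI2, hI3⟩ := main (exch_of_nilClean hR) a ha
    have := hI
    exact ⟨I, hI, hI1, nilClean_quot hR I, fun h => hI2 (h _), hI3⟩
  · intro R _ hR hJ
    exact p1 R (exch_of_nilClean hR) (fun I _ hI => jac_case hR hJ I hI)

end Pool.Agent.Results.MP_d9a27f_al.PiRegularIdeals
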