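import Mathlib

set_option autoImplicit false

/-!
# Rings that are π-regular modulo a nil ideal are D-regularly nil clean

Let `R` be a ring with a nil two-sided ideal `I` such that `R / I` is `π`-regular. Then `R` is
D-regularly nil clean.

Proof. If `a ^ M = a ^ M z a ^ M` and `z = z a ^ M z` with `2 ≤ M`, then `e = a z a ^ (M - 1)` is an
idempotent of `aRa` and `(a (1 - e)) ^ (M + 1) = 0`. The idempotent is lifted modulo the nil ideal
by a polynomial divisible by `X ^ 2`.
-/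

namespace Pool.Agent.Results.MP_d9a27f_al.PiRegularModNil

/-- `R` is D-regularly nil clean: for every `a` there is an idempotent `e` in `aRa` such that
`a (1 - e)` is nilpotent -/
def DRegularlyNilClean (R : Type*) [Ring R] : Prop :=
  ∀ a : R, ∃ e : R, IsIdempotentElem e ∧ (∃ x : R, e = a * x * a) ∧ IsNilpotent (a * (1 - e))

/-- `R` is `π`-regular: for every `a` there is `n ≥ 1` with `a ^ n` in `a ^ n R a ^ n` -/
def PiRegular (R : Type*) [Ring R] : Prop :=
  ∀ a : R, ∃ n : ℕ, 1 ≤ n ∧ ∃ y : R, a ^ n = a ^ n * y * a ^ n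

lemma core {S : Type*} [Ring S] (a z : S) (m : ℕ) (h1 : a ^ (m + 2) * z * a ^ (m + 2) = a ^ (m + 2))
    (h2 : z * a ^ (m + 2) * z = z) :
    IsIdempotentElem (a * z * a ^ (m + 1)) ∧ (a * (1 - a * z * a ^ (m + 1))) ^ (m + 3) = 0 := by
  have hid : IsIdempotentElem (a * z * a ^ (m + 1)) := by
    unfold IsIdempotentElem
    have h3 : a * z * a ^ (m + 1) * (a * z * a ^ (m + 1)) = a * (z * (a ^ (m + 1) * a) * z) * a ^ (m + 1) := by
      noncomm_ring
    rw [h3, ← pow_succ, h2]
  refine ⟨hid, ?_⟩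
  set e := a * z * a ^ (m + 1) with he
  set w := (1 - e) * a with hw
  have hk : a ^ (m + 1) * w = 0 := by
    have h4 : a ^ (m + 1) * w = a ^ (m + 1) * a - (a ^ (m + 1) * a) * z * (a ^ (m + 1) * a) := by
      rw [hw, he]; noncomm_ring
    rw [h4, ← pow_succ, h1, sub_self]
  have hstep : ∀ j : ℕ, w ^ j * w = a ^ j * w := by
    intro j
    induction j with
    | zero => simp
    | succ j ih =>
      have h5 : e * a * (a ^ j * w) = a * z * (a ^ (j + 1) * (a ^ (m + 1) * w)) := by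
        have h6 : a ^ (m + 1) * a * a ^ j = a ^ (j + 1) * a ^ (m + 1) := by
          rw [← pow_succ, ← pow_add, ← pow_add]; congr 1; ring
        calc e * a * (a ^ j * w) = a * z * (a ^ (m + 1) * a * a ^ j) * w := by
              rw [he]; noncomm_ring
          _ = a * z * (a ^ (j + 1) * (a ^ (m + 1) * w)) := by rw [h6]; noncomm_ring
      have h7 : w ^ (j + 1) * w = w * (w ^ j * w) := by rw [pow_succ']; noncomm_ring
      have h8 : w * (a ^ j * w) = a * a ^ j * w - e * a * (a ^ j * w) := by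
        nth_rewrite 1 [hw]; noncomm_ring
      rw [h7, ih, h8, h5, hk, mul_zero, mul_zero, sub_zero, ← pow_succ']
  have hw2 : w ^ (m + 2) = 0 := by
    rw [pow_succ, hstep, hk]
  have hfin : ∀ n : ℕ, (a * (1 - e)) ^ (n + 1) = a * w ^ n * (1 - e) := by
    intro n
    induction n with
    | zero => simp
    | succ n ih =>
      rw [pow_succ, ih, pow_succ w n, hw]
      noncomm_ring
  rw [hfin (m + 2), hw2, mul_zero, zero_mul]

/-- If `R / I` is `π`-regular for some nil two-sided ideal `I` of `R`, then `R` is D-regularly nil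
clean. -/
theorem result (R : Type*) [Ring R] (I : Ideal R) [I.IsTwoSided] (hI : ∀ x ∈ I, IsNilpotent x)
    (hR : PiRegular (R ⧸ I)) : DRegularlyNilClean R := by
  intro a
  let φ : R →+* (R ⧸ I) := Ideal.Quotient.mk I
  have hφ : Function.Surjective φ := Ideal.Quotient.mk_surjective
  have hker : ∀ x : R, φ x = 0 → IsNilpotent x := fun x hx => hI x (Ideal.Quotient.eq_zero_iff_mem.1 hx)
  obtain ⟨n, hn, y, hy⟩ := hR (φ a ^ 2)
  obtain ⟨m, hm⟩ : ∃ m : ℕ, 2 * n = m + 2 := ⟨2 * n - 2, by omega⟩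
  rw [← pow_mul, hm] at hy
  set A := φ a with hA
  obtain ⟨z, hz⟩ := hφ (y * A ^ (m + 2) * y)
  have h1 : A ^ (m + 2) * φ z * A ^ (m + 2) = A ^ (m + 2) := by
    rw [hz]
    calc A ^ (m + 2) * (y * A ^ (m + 2) * y) * A ^ (m + 2)
        = (A ^ (m + 2) * y * A ^ (m + 2)) * y * A ^ (m + 2) := by noncomm_ring
      _ = A ^ (m + 2) := by rw [← hy, ← hy]
  have h2 : φ z * A ^ (m + 2) * φ z = φ z := by
    rw [hz]
    calc y * A ^ (m + 2) * y * A ^ (m + 2) * (y * A ^ (m + 2) * y)
        = y * ((A ^ (m + 2) * y * A ^ (m + 2)) * y * A ^ (m + 2)) * y := by noncomm_ring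
      _ = y * A ^ (m + 2) * y := by rw [← hy, ← hy]
  obtain ⟨hid, hnil⟩ := core A (φ z) m h1 h2
  set x := a * z * a ^ (m + 1) with hx
  have hφx : φ x = A * φ z * A ^ (m + 1) := by simp [hx, hA]
  have hxx : φ (x - x ^ 2) = 0 := by
    rw [map_sub, map_pow, hφx, sq, hid.eq, sub_self]
  obtain ⟨k, hk⟩ := hker _ hxx
  have hk2 : (x - x ^ 2) ^ (k + 2) = 0 := by rw [pow_add, hk, zero_mul]
  have hidem := isIdempotentElem_one_sub_one_sub_pow_pow x (k + 2) hk2
  refine ⟨1 - (1 - x ^ (k + 2)) ^ (k + 2), hidem, ?_, ?_⟩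
  · have h3 : 1 - (1 - x ^ (k + 2)) ^ (k + 2) =
        x ^ (k + 2) * ∑ i ∈ Finset.range (k + 2), (1 - x ^ (k + 2)) ^ i := by
      have h4 := mul_neg_geom_sum (1 - x ^ (k + 2)) (k + 2)
      rw [← h4]
      congr 1
      abel
    have hcomm : Commute (∑ i ∈ Finset.range (k + 2), (1 - x ^ (k + 2)) ^ i) x := by
      refine Commute.sum_left _ _ _ fun i _ => ?_
      exact (((Commute.one_left x).sub_left ((Commute.refl x).pow_left _)).pow_left i)
    have hP : ∀ P : R, x * P * x = a * (z * a ^ m * a * P * a * z * a ^ m) * a := by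
      intro P
      rw [hx, pow_succ]
      simp only [mul_assoc]
    refine ⟨z * a ^ m * a * (x ^ k * ∑ i ∈ Finset.range (k + 2), (1 - x ^ (k + 2)) ^ i) * a * z * a ^ m, ?_⟩
    rw [← hP, h3]
    rw [mul_assoc x, mul_assoc (x ^ k), hcomm.eq, pow_succ x (k + 1), pow_succ' x k]
    simp only [mul_assoc]
  · have h6 : φ (1 - (1 - x ^ (k + 2)) ^ (k + 2)) = A * φ z * A ^ (m + 1) := by
      rw [map_sub, map_pow, map_sub, map_pow, map_one, hφx, hid.pow_succ_eq,
        hid.one_sub.pow_succ_eq, sub_sub_cancel]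
    have h7 : φ ((a * (1 - (1 - (1 - x ^ (k + 2)) ^ (k + 2)))) ^ (m + 3)) = 0 := by
      rw [map_pow, map_mul, map_sub φ 1, map_one, h6]
      exact hnil
    obtain ⟨l, hl⟩ := hker _ h7
    exact ⟨(m + 3) * l, by rw [pow_mul]; exact hl⟩

end Pool.Agent.Results.MP_d9a27f_al.PiRegularModNil
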